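import Pool.Agent.N566.VV.Defs

/-!
VV/8 (helper530): the value is holomorphic off the zeros of `{1}, …, {N-1}`.
-/

set_option autoImplicit false

namespace Pool.Agent.N530.VV

open Pool.Agent.H835R2.Knot
open Pool.Agent.H550R3.Jones (br brf Adm crossP crossN)
open Pool.Agent.N566.VV
open Finset

variable {N : ℕ}

theorem dz (e : ℤ) : DifferentiableOn ℂ (fun v : ℂ => v ^ e) {v | Adm N v} :=
  differentiableOn_zpow e _ (Or.inl fun h => h.1 rfl)

theorem dbr (n : ℤ) : DifferentiableOn ℂ (fun v : ℂ => br v n) {v | Adm N v} :=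
  (dz n).sub (dz (-n))

theorem dprod (n : ℕ) (f : ℕ → ℤ) :
    DifferentiableOn ℂ (fun v : ℂ => ∏ j ∈ range n, br v (f j)) {v | Adm N v} := by
  induction n with
  | zero => simpa using differentiableOn_const (1 : ℂ)
  | succ n ih =>
    simp only [prod_range_succ]
    exact ih.mul (dbr _)

theorem dbrf (n : ℕ) : DifferentiableOn ℂ (fun v : ℂ => brf v n) {v | Adm N v} :=
  dprod n fun j => (j : ℤ) + 1

theorem brf_ne {n : ℕ} (hn : n < N) {v : ℂ} (hv : Adm N v) : brf v n ≠ 0 := by
  unfold brf
  refine prod_ne_zero_iff.2 fun j hj => ?_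
  have h1 := hv.2 (j + 1) (Nat.succ_pos j) (by have := mem_range.1 hj; omega)
  simpa using h1

theorem dkap (hN : 0 < N) (j : ℕ) : DifferentiableOn ℂ (fun v => kap N v j) {v | Adm N v} := by
  unfold kap
  refine (DifferentiableOn.const_mul ?_ _).mul (dz _)
  exact ((dbrf _).mul (dbrf _)).div (dbrf _) fun v hv => brf_ne (by omega) hv

theorem kap_ne {j : ℕ} (hj : j < N) {v : ℂ} (hv : Adm N v) : kap N v j ≠ 0 := by
  unfold kap
  refine mul_ne_zero (mul_ne_zero (pow_ne_zero _ (by norm_num)) (div_ne_zero (mul_ne_zero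
    (brf_ne hj hv) (brf_ne (by omega) hv)) (brf_ne (by omega) hv))) (zpow_ne_zero _ hv.1)

theorem dcrossP (p q : Fin N × Fin N) :
    DifferentiableOn ℂ (fun v => crossP N v p q) {v | Adm N v} := by
  unfold crossP
  by_cases h : (p.1 : ℕ) + p.2 = q.1 + q.2 ∧ (q.2 : ℕ) ≤ p.1
  · simp only [if_pos h]
    refine DifferentiableOn.mul (DifferentiableOn.mul (DifferentiableOn.mul (dz _) ?_) ?_)
      (dprod _ _)
    · exact (differentiableOn_id.pow _)
    · refine (dbrf _).div ((dbrf _).mul (dbrf _)) fun v hv => mul_ne_zero (brf_ne ?_ hv)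
        (brf_ne ?_ hv)
      · exact q.2.2
      · have := p.1.2
        omega
  · simp only [if_neg h]
    exact differentiableOn_const _

theorem dcrossN (p q : Fin N × Fin N) :
    DifferentiableOn ℂ (fun v => crossN N v p q) {v | Adm N v} := by
  unfold crossN
  by_cases h : (p.1 : ℕ) + p.2 = q.1 + q.2 ∧ (q.1 : ℕ) ≤ p.2
  · simp only [if_pos h]
    refine DifferentiableOn.mul (DifferentiableOn.mul (DifferentiableOn.div
      (DifferentiableOn.const_mul (dz _) _) ?_ ?_) ?_) (dprod _ _)
    · exact (differentiableOn_id.pow _)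
    · intro v hv
      exact pow_ne_zero _ hv.1
    · refine (dbrf _).div ((dbrf _).mul (dbrf _)) fun v hv => mul_ne_zero (brf_ne ?_ hv)
        (brf_ne ?_ hv)
      · exact q.1.2
      · have := p.2.2
        omega
  · simp only [if_neg h]
    exact differentiableOn_const _

/-- families of functions of states which depend holomorphically on `v` -/
def Dif (f : ℂ → F (Fin N)) : Prop :=
  ∀ σ, DifferentiableOn ℂ (fun v => f v σ) {v | Adm N v}

theorem dif_bl (hN : 0 < N) (i : ℕ) {f : ℂ → F (Fin N)} (hf : Dif f) :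
    Dif fun v => Bl (datJ N v) i (f v) := by
  intro σ
  unfold Bl
  refine DifferentiableOn.fun_sum fun x _ => ?_
  refine DifferentiableOn.mul ?_ (hf (insS i x (Fin.rev x) σ))
  exact (dkap hN _).inv fun v hv => kap_ne (Fin.rev x).2 hv

theorem dif_dl (hN : 0 < N) (i : ℕ) {f : ℂ → F (Fin N)} (hf : Dif f) :
    Dif fun v => Dl (datJ N v) i (f v) := by
  intro σ
  unfold Dl
  by_cases h : σ (i + 1) = Fin.rev (σ i)
  · have : (fun v => if σ (i + 1) = (datJ N v).rev (σ i) then
        (datJ N v).d (σ i) * f v (delS i σ) else 0) =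
        fun v => kap N v (σ i) * f v (delS i σ) := by
      funext v
      exact if_pos h
    rw [this]
    exact (dkap hN _).mul (hf _)
  · have : (fun v => if σ (i + 1) = (datJ N v).rev (σ i) then
        (datJ N v).d (σ i) * f v (delS i σ) else 0) = fun _ => 0 := by
      funext v
      exact if_neg h
    rw [this]
    exact differentiableOn_const _

theorem dif_xl {A : ℂ → Matrix (Fin N × Fin N) (Fin N × Fin N) ℂ}
    (hA : ∀ p q, DifferentiableOn ℂ (fun v => A v p q) {v | Adm N v}) (i : ℕ)
    {f : ℂ → F (Fin N)} (hf : Dif f) : Dif fun v => Xl (A v) i (f v) := by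
  intro σ
  unfold Xl
  exact DifferentiableOn.fun_sum fun p _ => (hA _ _).mul (hf _)

theorem dif_smul {c : ℂ → ℂ} (hc : DifferentiableOn ℂ c {v | Adm N v})
    {f : ℂ → F (Fin N)} (hf : Dif f) : Dif fun v => c v • f v := by
  intro σ
  exact hc.mul (hf σ)

theorem dif_P (p q : Fin N × Fin N) :
    DifferentiableOn ℂ (fun v => (datJ N v).P p q) {v | Adm N v} :=
  (dz (fr N)).mul (dcrossP p q)

theorem dif_Q (p q : Fin N × Fin N) :
    DifferentiableOn ℂ (fun v => (datJ N v).Q p q) {v | Adm N v} :=
  (dz (-fr N)).mul (dcrossN p q)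

theorem dif_opP (hN : 0 < N) (p : Piece) (d : ℕ → Bool) {f : ℂ → F (Fin N)} (hf : Dif f) :
    Dif fun v => opP (datJ N v) p d (f v) := by
  cases p with
  | birth i b => exact dif_bl hN i hf
  | death i => exact dif_dl hN i hf
  | pos i =>
    refine dif_smul (c := fun v => if d i = d (i + 1) then (datJ N v).k else (datJ N v).k') ?_
      (dif_xl dif_P i hf)
    split_ifs
    · exact dz _
    · exact dz _
  | neg i =>
    refine dif_smul (c := fun v => if d i = d (i + 1) then (datJ N v).k' else (datJ N v).k) ?_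
      (dif_xl dif_Q i hf)
    split_ifs
    · exact dz _
    · exact dz _

theorem dif_opD (hN : 0 < N) (D : Word) : ∀ (A : Front) {f : ℂ → F (Fin N)}, Dif f →
    Dif fun v => opD (datJ N v) D A (f v) := by
  induction D with
  | nil => intro A f hf; exact hf
  | cons p w ih =>
    intro A f hf
    exact dif_opP hN p A.dir (ih (p.act A) hf)

theorem s_diff : Pool.Agent.N566.VV.S_DIFF := by
  intro N hN D σ
  exact dif_opD hN.pos D Front.empty (f := fun _ _ => 1) (fun _ => differentiableOn_const _) σ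

end Pool.Agent.N530.VV
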